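import Pool.Agent.Q18.HQ.Stmts

set_option autoImplicit false

namespace Pool.Agent.H238.Fallback.HQDen

theorem gen (κ a c : ℤ) (r q : ℚ) (h : (κ : ℚ) * r ^ 2 * q ^ 2 = q ^ 4 + a * q ^ 2 + c) :
    q.den ∣ r.den := by
  have key : ∀ (M m e k : ℚ), e ≠ 0 → k ≠ 0 →
      (κ : ℚ) * (m / k) ^ 2 * (M / e) ^ 2 = (M / e) ^ 4 + a * (M / e) ^ 2 + c →
      (κ : ℚ) * m ^ 2 * M ^ 2 * e ^ 2 = k ^ 2 * (M ^ 4 + a * M ^ 2 * e ^ 2 + c * e ^ 4) := by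
    intro M m e k he hk h
    field_simp at h
    linarith
  have h1 := key q.num r.num q.den r.den (by exact_mod_cast q.den_ne_zero)
    (by exact_mod_cast r.den_ne_zero) (by rw [Rat.num_div_den, Rat.num_div_den]; exact h)
  have h2 : κ * r.num ^ 2 * q.num ^ 2 * (q.den : ℤ) ^ 2 =
      (r.den : ℤ) ^ 2 * (q.num ^ 4 + a * q.num ^ 2 * (q.den : ℤ) ^ 2 + c * (q.den : ℤ) ^ 4) := by
    exact_mod_cast h1
  have h3 : (q.den : ℤ) ^ 2 ∣ (r.den : ℤ) ^ 2 * q.num ^ 4 := by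
    refine ⟨κ * r.num ^ 2 * q.num ^ 2 - (r.den : ℤ) ^ 2 * (a * q.num ^ 2 + c * (q.den : ℤ) ^ 2), ?_⟩
    linear_combination -h2
  have hcop : IsCoprime ((q.den : ℤ) ^ 2) (q.num ^ 4) := by
    apply IsCoprime.pow
    rw [Int.isCoprime_iff_gcd_eq_one]
    have := q.reduced
    rw [Int.gcd_comm]
    simpa [Int.gcd, Nat.Coprime] using this
  have h4 : (q.den : ℤ) ^ 2 ∣ (r.den : ℤ) ^ 2 := hcop.dvd_of_dvd_mul_right h3
  have h5 : q.den ^ 2 ∣ r.den ^ 2 := by exact_mod_cast h4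
  exact (Nat.pow_dvd_pow_iff two_ne_zero).1 h5

theorem den1 : Pool.Agent.Q18.HQ.TaskDen1 := by
  intro r q _ h
  exact gen 4 145158 767711241 r q (by push_cast; exact h)

theorem den2 : Pool.Agent.Q18.HQ.TaskDen2 := by
  intro q s _ h
  refine gen 1 (-72579) 1125000000 q s ?_
  push_cast
  linarith

theorem back : Pool.Agent.Q18.HQ.TaskBack := by
  intro r q s h1 h2 h3
  have h4 : s ^ 4 = 62500 ^ 2 := by rw [show s ^ 4 = (s ^ 2) ^ 2 by ring, h3]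
  rw [h3, h4] at h2
  have h5 : q ^ 2 = 7921 := by linarith
  have h6 : q ^ 4 = 7921 ^ 2 := by rw [show q ^ 4 = (q ^ 2) ^ 2 by ring, h5]
  rw [h5, h6] at h1
  linarith

end Pool.Agent.H238.Fallback.HQDen
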