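import Pool.Agent.Q18.HQ.Stmts

set_option autoImplicit false

namespace Pool.Agent.H238.Fallback.HQStep

open Pool.Agent.Q18.HQ

theorem step1 (hSel2 : TaskSel2) : Pool.Agent.Q18.HQ.TaskStep1 := by
  intro r y hy
  obtain ⟨x, hx⟩ : ∃ x, x = 2 * r ^ 2 - 72579 - 2 * y := ⟨_, rfl⟩
  obtain ⟨x', hx'⟩ : ∃ x', x' = 2 * r ^ 2 - 72579 + 2 * y := ⟨_, rfl⟩
  have h1 : x * x' = 767711241 := by
    rw [hx, hx']
    linear_combination (-4) * hy
  have h2 : x + x' + 145158 = 4 * r ^ 2 := by rw [hx, hx']; ring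
  have hx0 : x ≠ 0 := by
    intro h0
    rw [h0, zero_mul] at h1
    norm_num at h1
  have hE : E 145158 767711241 x (2 * r * x) := by
    unfold E
    push_cast
    have h3 : 4 * r ^ 2 * x = x ^ 2 + 145158 * x + 767711241 := by
      rw [← h2, ← h1]; ring
    linear_combination x * h3
  rcases hSel2 x _ hx0 hE with ⟨s, hs⟩ | ⟨s, hs⟩
  · have hs0 : s ≠ 0 := by
      rintro rfl
      apply hx0
      rw [hs]; ring
    refine ⟨s, hs0, ?_⟩
    have h3 : 4 * r ^ 2 * x = x ^ 2 + 145158 * x + 767711241 := by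
      rw [← h2, ← h1]; ring
    rw [hs] at h3
    linear_combination h3
  · have hs0 : s ≠ 0 := by
      rintro rfl
      apply hx0
      rw [hs]; ring
    have hx'' : x' = (2937 / s) ^ 2 := by
      have h4 : x' = 767711241 / x := by
        rw [eq_div_iff hx0]; linarith
      rw [h4, hs]
      field_simp
      norm_num
    refine ⟨2937 / s, div_ne_zero (by norm_num) hs0, ?_⟩
    have h3 : 4 * r ^ 2 * x' = x' ^ 2 + 145158 * x' + 767711241 := by
      rw [← h2, ← h1]; ring
    rw [hx''] at h3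
    linear_combination h3

theorem step2 (hSel1 : TaskSel1) : Pool.Agent.Q18.HQ.TaskStep2 := by
  intro r q hq h
  obtain ⟨x, hx⟩ : ∃ x, x = (q ^ 2 + 72579 + 2 * r * q) / 2 := ⟨_, rfl⟩
  obtain ⟨x', hx'⟩ : ∃ x', x' = (q ^ 2 + 72579 - 2 * r * q) / 2 := ⟨_, rfl⟩
  have h1 : x * x' = 1125000000 := by
    rw [hx, hx']
    linear_combination (-1 / 4) * h
  have h2 : x + x' - 72579 = q ^ 2 := by rw [hx, hx']; ring
  have hx0 : x ≠ 0 := by
    intro h0
    rw [h0, zero_mul] at h1
    norm_num at h1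
  have h3 : ∀ z z' : ℚ, z * z' = 1125000000 → z + z' - 72579 = q ^ 2 →
      q ^ 2 * z = z ^ 2 - 72579 * z + 1125000000 := by
    intro z z' e1 e2
    rw [← e2, ← e1]; ring
  have hE : E (-72579) 1125000000 x (q * x) := by
    unfold E
    push_cast
    have h4 := h3 x x' h1 h2
    linear_combination x * h4
  rcases hSel1 x _ hx0 hE with ⟨s, hs⟩ | ⟨s, hs⟩
  · have hs0 : s ≠ 0 := by
      rintro rfl
      apply hx0
      rw [hs]; ring
    refine ⟨s, hs0, ?_⟩
    have h4 := h3 x x' h1 h2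
    rw [hs] at h4
    linear_combination h4
  · have hs0 : s ≠ 0 := by
      rintro rfl
      apply hx0
      rw [hs]; ring
    have hx'' : x' = (15000 / s) ^ 2 := by
      have h4 : x' = 1125000000 / x := by
        rw [eq_div_iff hx0]; linarith
      rw [h4, hs]
      field_simp
      norm_num
    refine ⟨15000 / s, div_ne_zero (by norm_num) hs0, ?_⟩
    have h4 := h3 x' x (by rw [mul_comm]; exact h1) (by linarith)
    rw [hx''] at h4
    linear_combination h4

end Pool.Agent.H238.Fallback.HQStep
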